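import Pool.Agent.W890.SF.Stm

/-! Subtask SAM-KEY. -/

set_option autoImplicit false

namespace Pool.Agent.W883.SAM

open Finset Pool.Agent.W890.SF

variable {ι : Type} [DecidableEq ι]

lemma wt_erase (q : ι → ℝ) (S ω : Finset ι) (x : ι) (hx : x ∈ S) (hω : ω ⊆ S.erase x) :
    Wt q S ω = (1 - q x) * Wt q (S.erase x) ω := by
  unfold Wt
  have hxω : x ∉ ω := fun h => (Finset.notMem_erase x S) (hω h)
  have h1 : S \ ω = insert x ((S.erase x) \ ω) := by
    ext y
    simp only [mem_sdiff, mem_insert, mem_erase]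
    constructor
    · rintro ⟨h1, h2⟩
      by_cases hy : y = x
      · exact Or.inl hy
      · exact Or.inr ⟨⟨hy, h1⟩, h2⟩
    · rintro (rfl | ⟨⟨h1, h2⟩, h3⟩)
      · exact ⟨hx, hxω⟩
      · exact ⟨h2, h3⟩
  rw [h1, prod_insert (by simp)]
  ring

lemma pow_erase (S : Finset ι) (x : ι) :
    (S.erase x).powerset = S.powerset.filter (fun ω => x ∉ ω) := by
  ext ω
  simp only [mem_powerset, mem_filter, subset_erase]

lemma swap (S : Finset ι) (b : ι → ℝ) (f : Finset ι → ℝ) :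
    ∑ x ∈ S, b x * ∑ ω ∈ (S.erase x).powerset, f ω =
      ∑ ω ∈ S.powerset, f ω * (∑ i ∈ S, b i - ∑ i ∈ ω, b i) := by
  have h1 : ∀ x ∈ S, b x * ∑ ω ∈ (S.erase x).powerset, f ω =
      ∑ ω ∈ S.powerset, if x ∉ ω then f ω * b x else 0 := by
    intro x _
    rw [pow_erase, sum_filter, mul_sum]
    refine sum_congr rfl fun ω _ => ?_
    split_ifs
    · ring
    · ring
  rw [sum_congr rfl h1, sum_comm]
  refine sum_congr rfl fun ω hω => ?_
  rw [← sum_filter, ← mul_sum]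
  congr 1
  have h2 : S.filter (fun x => x ∉ ω) = S \ ω := by
    ext y; simp
  rw [h2, eq_sub_iff_add_eq]
  exact sum_sdiff (mem_powerset.1 hω)

theorem key : S_KEY := by
  intro ι _ b q c S hc hS hne
  set F : Finset ι → ℝ := fun ω => if ∑ i ∈ ω, b i < c then Wt q S ω else 0 with hF
  set D : Finset ι → ℝ := fun ω => c - ∑ i ∈ ω, b i with hD
  have hF0 : ∀ ω ∈ S.powerset, 0 ≤ F ω := by
    intro ω hω
    simp only [hF]
    split_ifs
    · unfold Wt
      refine mul_nonneg (prod_nonneg fun i hi => (hS i (mem_powerset.1 hω hi)).2.1)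
        (prod_nonneg fun i hi => ?_)
      have := (hS i (mem_sdiff.1 hi).1).2.2
      linarith
    · exact le_refl _
  have hPU : PU b q c S = ∑ ω ∈ S.powerset, F ω := rfl
  have hPG : PG b q c S = ∑ ω ∈ S.powerset, F ω * D ω := by
    unfold PG
    refine sum_congr rfl fun ω _ => ?_
    simp only [hF, hD]
    split_ifs
    · rfl
    · rw [zero_mul]
  have hPUe : ∀ x ∈ S, (1 - q x) * PU b q c (S.erase x) = ∑ ω ∈ (S.erase x).powerset, F ω := by
    intro x hx
    unfold PU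
    rw [mul_sum]
    refine sum_congr rfl fun ω hω => ?_
    simp only [hF]
    rw [wt_erase q S ω x hx (mem_powerset.1 hω)]
    split_ifs
    · rfl
    · rw [mul_zero]
  have hPGe : ∀ x ∈ S, (1 - q x) * PG b q c (S.erase x) =
      ∑ ω ∈ (S.erase x).powerset, F ω * D ω := by
    intro x hx
    unfold PG
    rw [mul_sum]
    refine sum_congr rfl fun ω hω => ?_
    simp only [hF, hD]
    rw [wt_erase q S ω x hx (mem_powerset.1 hω)]
    split_ifs
    · ring
    · ring
  by_contra hcon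
  push Not at hcon
  set BB := ∑ i ∈ S, b i with hBB
  have h1 : ∑ x ∈ S, b x * ((1 - q x) * PU b q c (S.erase x)) =
      ∑ ω ∈ S.powerset, F ω * (BB - ∑ i ∈ ω, b i) := by
    rw [← swap S b F]
    exact sum_congr rfl fun x hx => by rw [hPUe x hx]
  have h2 : ∑ x ∈ S, b x * ((1 - q x) * PG b q c (S.erase x)) =
      ∑ ω ∈ S.powerset, (F ω * D ω) * (BB - ∑ i ∈ ω, b i) := by
    rw [← swap S b (fun ω => F ω * D ω)]
    exact sum_congr rfl fun x hx => by rw [hPGe x hx]
  have h3 : ∑ ω ∈ S.powerset, F ω * (BB - ∑ i ∈ ω, b i) =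
      ∑ ω ∈ S.powerset, F ω * D ω + (BB - c) * ∑ ω ∈ S.powerset, F ω := by
    rw [mul_sum, ← sum_add_distrib]
    refine sum_congr rfl fun ω _ => ?_
    simp only [hD]; ring
  have h4 : ∑ ω ∈ S.powerset, (F ω * D ω) * (BB - ∑ i ∈ ω, b i) =
      ∑ ω ∈ S.powerset, F ω * D ω ^ 2 + (BB - c) * ∑ ω ∈ S.powerset, F ω * D ω := by
    rw [mul_sum, ← sum_add_distrib]
    refine sum_congr rfl fun ω _ => ?_
    simp only [hD]; ring
  have h5 : (∑ ω ∈ S.powerset, F ω * D ω) ^ 2 ≤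
      (∑ ω ∈ S.powerset, F ω) * ∑ ω ∈ S.powerset, F ω * D ω ^ 2 := by
    have h := sum_mul_sq_le_sq_mul_sq S.powerset (fun ω => Real.sqrt (F ω))
      (fun ω => Real.sqrt (F ω) * D ω)
    have e1 : ∑ ω ∈ S.powerset, Real.sqrt (F ω) * (Real.sqrt (F ω) * D ω) =
        ∑ ω ∈ S.powerset, F ω * D ω :=
      sum_congr rfl fun ω hω => by rw [← mul_assoc, Real.mul_self_sqrt (hF0 ω hω)]
    have e2 : ∑ ω ∈ S.powerset, Real.sqrt (F ω) ^ 2 = ∑ ω ∈ S.powerset, F ω :=
      sum_congr rfl fun ω hω => by rw [Real.sq_sqrt (hF0 ω hω)]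
    have e3 : ∑ ω ∈ S.powerset, (Real.sqrt (F ω) * D ω) ^ 2 =
        ∑ ω ∈ S.powerset, F ω * D ω ^ 2 :=
      sum_congr rfl fun ω hω => by rw [mul_pow, Real.sq_sqrt (hF0 ω hω)]
    rw [e1, e2, e3] at h
    exact h
  have h6 : ∑ x ∈ S, b x * (1 - q x) *
      (PG b q c (S.erase x) * PU b q c S - PG b q c S * PU b q c (S.erase x)) < 0 := by
    apply sum_neg
    · intro x hx
      obtain ⟨hb, _, hq⟩ := hS x hx
      have h7 : 0 < b x * (1 - q x) := mul_pos hb (by linarith)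
      have h8 := hcon x hx
      exact mul_neg_of_pos_of_neg h7 (by linarith)
    · exact hne
  have h7 : ∑ x ∈ S, b x * (1 - q x) *
      (PG b q c (S.erase x) * PU b q c S - PG b q c S * PU b q c (S.erase x)) =
      (∑ x ∈ S, b x * ((1 - q x) * PG b q c (S.erase x))) * PU b q c S -
      PG b q c S * ∑ x ∈ S, b x * ((1 - q x) * PU b q c (S.erase x)) := by
    rw [sum_mul, mul_sum, ← sum_sub_distrib]
    refine sum_congr rfl fun x _ => ?_
    ring
  rw [h7, h1, h2, h3, h4, hPU, hPG] at h6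
  nlinarith [h5, h6]

end Pool.Agent.W883.SAM
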